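import Pool.Agent.Run7.h314.LK.Iface2
import Pool.Agent.N696.LI.P_POLY2
import Pool.Agent.N696.LI.P_HESS

/-!
# Project LK of helper314 (MP_e3ee0c_gt): piece POLYH

The invariant polynomial of a homogeneous contact form with compact isotropy, in coordinates.
-/

set_option autoImplicit false

noncomputable section

namespace Pool.Agent.Run7.h882.LK

open Topology Filter Pool.Agent.N696.LI Pool.Agent.Run7.h314.LK Matrix
open scoped Polynomial

variable {n : ℕ}

/-- the space `ℝ^n × ℝ` -/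
abbrev W (n : ℕ) : Type := (Fin n → ℝ) × ℝ

/-- the indices -/
abbrev Ix (n : ℕ) : Type := Fin n ⊕ Unit

/-- the standard basis -/
def bb (n : ℕ) : Module.Basis (Ix n) ℝ (W n) :=
  (Pi.basisFun ℝ (Fin n)).prod (Module.Basis.singleton Unit ℝ)

/-- the bordered form -/
def mf (b : (Fin n → ℝ) →ₗ[ℝ] (Fin n → ℝ) →ₗ[ℝ] (Fin n → ℝ)) (β : Fin n → ℝ) :
    W n →ₗ[ℝ] W n →ₗ[ℝ] ℝ :=
  LinearMap.mk₂ ℝ (fun u w => dotProduct β (b u.1 w.1) + w.2 * dotProduct β u.1 -
      u.2 * dotProduct β w.1)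
    (by intro u u' w; simp only [Prod.fst_add, Prod.snd_add, map_add, LinearMap.add_apply,
          dotProduct_add]; ring)
    (by intro c u w; simp only [Prod.smul_fst, Prod.smul_snd, map_smul, LinearMap.smul_apply,
          dotProduct_smul, smul_eq_mul]; ring)
    (by intro u w w'; simp only [Prod.fst_add, Prod.snd_add, map_add,
          dotProduct_add]; ring)
    (by intro c u w; simp only [Prod.smul_fst, Prod.smul_snd, map_smul,
          dotProduct_smul, smul_eq_mul]; ring)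

theorem mf_apply (b : (Fin n → ℝ) →ₗ[ℝ] (Fin n → ℝ) →ₗ[ℝ] (Fin n → ℝ)) (β : Fin n → ℝ)
    (u w : W n) : mf b β u w = dotProduct β (b u.1 w.1) + w.2 * dotProduct β u.1 -
      u.2 * dotProduct β w.1 := rfl

/-- the bordered form is linear in `β` -/
def mfL (b : (Fin n → ℝ) →ₗ[ℝ] (Fin n → ℝ) →ₗ[ℝ] (Fin n → ℝ)) :
    (Fin n → ℝ) →ₗ[ℝ] (W n →ₗ[ℝ] W n →ₗ[ℝ] ℝ) where
  toFun := mf b
  map_add' β β' := by
    refine LinearMap.ext fun u => LinearMap.ext fun w => ?_
    simp only [LinearMap.add_apply, mf_apply, add_dotProduct]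
    ring
  map_smul' c β := by
    refine LinearMap.ext fun u => LinearMap.ext fun w => ?_
    simp only [LinearMap.smul_apply, mf_apply, smul_dotProduct, smul_eq_mul, RingHom.id_apply]
    ring

/-- the matrix of a form -/
abbrev mat (f : W n →ₗ[ℝ] W n →ₗ[ℝ] ℝ) : Matrix (Ix n) (Ix n) ℝ :=
  LinearMap.toMatrix₂ (bb n) (bb n) f

/-- the matrix of an endomorphism -/
abbrev emat (f : W n →ₗ[ℝ] W n) : Matrix (Ix n) (Ix n) ℝ :=
  LinearMap.toMatrix (bb n) (bb n) f

/-- the matrix `M β` -/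
def Mm (b : (Fin n → ℝ) →ₗ[ℝ] (Fin n → ℝ) →ₗ[ℝ] (Fin n → ℝ)) :
    (Fin n → ℝ) →ₗ[ℝ] Matrix (Ix n) (Ix n) ℝ :=
  (LinearMap.toMatrix₂ (bb n) (bb n)).toLinearMap.comp (mfL b)

theorem Mm_apply (b : (Fin n → ℝ) →ₗ[ℝ] (Fin n → ℝ) →ₗ[ℝ] (Fin n → ℝ)) (β : Fin n → ℝ) :
    Mm b β = mat (mf b β) := rfl

/-- the form `B`, extended -/
def Bf (B : (Fin n → ℝ) →ₗ[ℝ] (Fin n → ℝ) →ₗ[ℝ] ℝ) : W n →ₗ[ℝ] W n →ₗ[ℝ] ℝ :=
  B.compl₁₂ (LinearMap.fst ℝ (Fin n → ℝ) ℝ) (LinearMap.fst ℝ (Fin n → ℝ) ℝ)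

theorem Bf_apply (B : (Fin n → ℝ) →ₗ[ℝ] (Fin n → ℝ) →ₗ[ℝ] ℝ) (u w : W n) :
    Bf B u w = B u.1 w.1 := rfl

/-- the polynomial matrix `M₀ + s B'` -/
def PM (M₀ B' : Matrix (Ix n) (Ix n) ℝ) : Matrix (Ix n) (Ix n) ℝ[X] :=
  M₀.map Polynomial.C + (Polynomial.X : ℝ[X]) • B'.map Polynomial.C

theorem eval_det (M₀ B' : Matrix (Ix n) (Ix n) ℝ) (s : ℝ) :
    (PM M₀ B').det.eval s = (M₀ + s • B').det := by
  rw [← Polynomial.coe_evalRingHom, RingHom.map_det]
  congr 1
  ext i j
  simp only [PM, RingHom.mapMatrix_apply, Matrix.map_apply, Matrix.add_apply, Matrix.smul_apply,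
    smul_eq_mul, Polynomial.coe_evalRingHom, Polynomial.eval_add, Polynomial.eval_C,
    Polynomial.eval_mul, Polynomial.eval_X]

theorem mat_add_smul (f g : W n →ₗ[ℝ] W n →ₗ[ℝ] ℝ) (s : ℝ) :
    mat (f + s • g) = mat f + s • mat g := by
  rw [mat, (LinearMap.toMatrix₂ (bb n) (bb n)).map_add, (LinearMap.toMatrix₂ (bb n) (bb n)).map_smul]

theorem mat_comp (f : W n →ₗ[ℝ] W n →ₗ[ℝ] ℝ) (T : W n →ₗ[ℝ] W n) :
    mat (f.comp T) = (emat T)ᵀ * mat f := LinearMap.toMatrix₂_comp (bb n) (bb n) (bb n) f T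

theorem mat_compl₂ (f : W n →ₗ[ℝ] W n →ₗ[ℝ] ℝ) (T : W n →ₗ[ℝ] W n) :
    mat (f.compl₂ T) = mat f * emat T := LinearMap.toMatrix₂_compl₂ (bb n) (bb n) (bb n) f T

/-- nondegeneracy -/
theorem det_ne_iff (f g : W n →ₗ[ℝ] W n →ₗ[ℝ] ℝ) (s : ℝ) :
    (mat f + s • mat g).det ≠ 0 ↔ ∀ u, (∀ w, f u w + s * g u w = 0) → u = 0 := by
  rw [← mat_add_smul, ← LinearMap.separatingLeft_iff_det_ne_zero]
  rfl

/-! ### Directions -/

section dir

variable {b : (Fin n → ℝ) →ₗ[ℝ] (Fin n → ℝ) →ₗ[ℝ] (Fin n → ℝ)}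
  {B : (Fin n → ℝ) →ₗ[ℝ] (Fin n → ℝ) →ₗ[ℝ] ℝ}

/-- `ad X ⊕ 0` -/
def adW (b : (Fin n → ℝ) →ₗ[ℝ] (Fin n → ℝ) →ₗ[ℝ] (Fin n → ℝ)) (X : Fin n → ℝ) :
    W n →ₗ[ℝ] W n := (b X).prodMap 0

theorem adW_apply (X : Fin n → ℝ) (u : W n) : adW b X u = (b X u.1, 0) := rfl

theorem Mm_ad (hjac : ∀ X Y Z, b X (b Y Z) = b (b X Y) Z + b Y (b X Z))
    {β δ X : Fin n → ℝ} (hδ : ∀ Z, dotProduct δ Z = dotProduct β (b X Z)) :
    Mm b δ = (emat (adW b X))ᵀ * Mm b β + Mm b β * emat (adW b X) := by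
  rw [Mm_apply, Mm_apply, ← mat_comp, ← mat_compl₂, ← map_add]
  congr 1
  refine LinearMap.ext fun u => LinearMap.ext fun w => ?_
  rw [LinearMap.add_apply, LinearMap.add_apply, LinearMap.comp_apply, LinearMap.compl₂_apply,
    mf_apply, mf_apply, mf_apply, adW_apply, adW_apply, hδ, hδ, hδ]
  simp only [hjac X u.1 w.1, dotProduct_add, zero_mul]
  ring

theorem Bm_ad (hanti : ∀ X Y, b X Y = - b Y X)
    (hinv : ∀ X Y Z, B (b X Y) Z = B X (b Y Z)) (X : Fin n → ℝ) :
    (emat (adW b X))ᵀ * mat (Bf B) + mat (Bf B) * emat (adW b X) = 0 := by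
  rw [← mat_comp, ← mat_compl₂, ← map_add]
  have : (Bf B).comp (adW b X) + (Bf B).compl₂ (adW b X) = 0 := by
    refine LinearMap.ext fun u => LinearMap.ext fun w => ?_
    rw [LinearMap.add_apply, LinearMap.add_apply, LinearMap.comp_apply, LinearMap.compl₂_apply,
      Bf_apply, Bf_apply, adW_apply, adW_apply]
    show B (b X u.1) w.1 + B u.1 (b X w.1) = 0
    rw [← hinv u.1 X w.1, hanti u.1 X, map_neg, LinearMap.neg_apply, add_neg_cancel]
  rw [this, map_zero]

theorem trace_ad (htr : ∀ X, LinearMap.trace ℝ _ (b X) = 0) (X : Fin n → ℝ) :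
    (emat (adW b X)).trace = 0 := by
  rw [← LinearMap.trace_eq_matrix_trace, adW, LinearMap.trace_prodMap', htr, map_zero, add_zero]

/-- directions `β ∘ ad X` -/
theorem dir1 (hanti : ∀ X Y, b X Y = - b Y X)
    (hjac : ∀ X Y Z, b X (b Y Z) = b (b X Y) Z + b Y (b X Z))
    (htr : ∀ X, LinearMap.trace ℝ _ (b X) = 0)
    (hinv : ∀ X Y Z, B (b X Y) Z = B X (b Y Z))
    {β δ X : Fin n → ℝ} (hδ : ∀ Z, dotProduct δ Z = dotProduct β (b X Z)) (k : ℕ) :
    (((PM (Mm b β) (mat (Bf B))).adjugate * ((Mm b δ).map Polynomial.C)).trace).coeff k = 0 := by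
  set A : Matrix (Ix n) (Ix n) ℝ := emat (adW b X) with hA
  set Q := PM (Mm b β) (mat (Bf B)) with hQ
  have h1 := Mm_ad hjac hδ
  have h2 := Bm_ad (B := B) hanti hinv X
  rw [← hA] at h1 h2
  have h3 : (Mm b δ).map Polynomial.C = (Aᵀ).map Polynomial.C * Q + Q * A.map Polynomial.C := by
    rw [hQ, PM, mul_add, add_mul, Matrix.mul_smul, Matrix.smul_mul, h1,
      Matrix.map_add _ (fun a b => Polynomial.C_add), Matrix.map_mul, Matrix.map_mul]
    have h4 : (Polynomial.X : ℝ[X]) • ((Aᵀ).map Polynomial.C * (mat (Bf B)).map Polynomial.C) +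
        (Polynomial.X : ℝ[X]) • ((mat (Bf B)).map Polynomial.C * A.map Polynomial.C) = 0 := by
      rw [← smul_add, ← Matrix.map_mul, ← Matrix.map_mul,
        ← Matrix.map_add _ (fun a b => Polynomial.C_add), h2]
      ext i j
      simp
    calc _ = (Aᵀ).map Polynomial.C * (Mm b β).map Polynomial.C +
          (Mm b β).map Polynomial.C * A.map Polynomial.C + 0 := (add_zero _).symm
      _ = _ := by rw [← h4]; abel
  have h5 : A.trace = 0 := trace_ad htr X
  have h6 : (A.map (Polynomial.C : ℝ →+* ℝ[X])).trace = 0 := by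
    have : (A.map (Polynomial.C : ℝ →+* ℝ[X])).trace = Polynomial.C A.trace := by
      simp [Matrix.trace, map_sum]
    rw [this, h5, map_zero]
  have h7 : ((Aᵀ).map (Polynomial.C : ℝ →+* ℝ[X])).trace = 0 := by
    rw [Matrix.transpose_map, Matrix.trace_transpose]
    exact h6
  rw [h3, mul_add, ← mul_assoc, ← mul_assoc, Matrix.adjugate_mul, Matrix.trace_add,
    Matrix.trace_mul_cycle, Matrix.mul_adjugate, Matrix.smul_mul, Matrix.smul_mul, one_mul,
    one_mul, Matrix.trace_smul, Matrix.trace_smul]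
  have h6' : (A.map (⇑(Polynomial.C : ℝ →+* ℝ[X]))).trace = 0 := h6
  have h7' : ((Aᵀ).map (⇑(Polynomial.C : ℝ →+* ℝ[X]))).trace = 0 := h7
  rw [h6', h7', smul_zero, add_zero, Polynomial.coeff_zero]

/-- `(Z, c) ↦ (c Y, 0)` -/
def e1 (Y : Fin n → ℝ) : W n →ₗ[ℝ] W n where
  toFun u := (u.2 • Y, 0)
  map_add' u w := by ext <;> simp [add_mul]
  map_smul' c u := by ext <;> simp [mul_assoc]

theorem e1_apply (Y : Fin n → ℝ) (u : W n) : e1 Y u = (u.2 • Y, 0) := rfl

/-- the form `((X, a), (Z, c)) ↦ c B Y X - a B Y Z` -/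
def nf (B : (Fin n → ℝ) →ₗ[ℝ] (Fin n → ℝ) →ₗ[ℝ] ℝ) (Y : Fin n → ℝ) :
    W n →ₗ[ℝ] W n →ₗ[ℝ] ℝ :=
  LinearMap.mk₂ ℝ (fun u w => w.2 * B Y u.1 - u.2 * B Y w.1)
    (by intro u u' w; simp only [Prod.fst_add, Prod.snd_add, map_add]; ring)
    (by intro c u w; simp only [Prod.smul_fst, Prod.smul_snd, map_smul, smul_eq_mul]; ring)
    (by intro u w w'; simp only [Prod.fst_add, Prod.snd_add, map_add]; ring)
    (by intro c u w; simp only [Prod.smul_fst, Prod.smul_snd, map_smul, smul_eq_mul]; ring)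

theorem nf_apply (Y : Fin n → ℝ) (u w : W n) :
    nf B Y u w = w.2 * B Y u.1 - u.2 * B Y w.1 := rfl

/-- directions `B(Y, ·)` -/
theorem dir2 (hbord : S_bord) (hanti : ∀ X Y, b X Y = - b Y X)
    (hjac : ∀ X Y Z, b X (b Y Z) = b (b X Y) Z + b Y (b X Z))
    (hsym : ∀ X Y, B X Y = B Y X)
    (hinv : ∀ X Y Z, B (b X Y) Z = B X (b Y Z))
    {β δ Y : Fin n → ℝ} (hδ : ∀ Z, dotProduct δ Z = B Y Z)
    (hY : ∀ Z, dotProduct β (b Y Z) = 0) (hY0 : dotProduct β Y = 0) (K : ℕ)
    (hs : ∃ s : ℝ, (Mm b β + s • mat (Bf B)).det ≠ 0)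
    (hK : ∀ k, K < k → ((PM (Mm b β) (mat (Bf B))).det).coeff k = 0) :
    (((PM (Mm b β) (mat (Bf B))).adjugate * ((Mm b δ).map Polynomial.C)).trace).coeff K = 0 := by
  set A : Matrix (Ix n) (Ix n) ℝ := emat (adW b Y) with hA
  have h1 : Aᵀ * Mm b β + Mm b β * A = 0 := by
    rw [← Mm_ad (δ := 0) hjac (X := Y) (by intro Z; rw [zero_dotProduct, hY]), map_zero]
  have h2 := Bm_ad (B := B) hanti hinv Y
  rw [← hA] at h2
  have key := hbord (Ix n) (Mm b β) (mat (Bf B)) (-A) (mat (nf B Y)) (emat (e1 Y))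
    (-(emat (e1 Y))ᵀ) K (by
      rw [Matrix.transpose_neg, neg_mul, mul_neg, ← neg_add, h1, neg_zero]) (by
      rw [Matrix.transpose_neg, neg_mul, mul_neg, ← neg_add, h2, neg_zero]) (by
      intro s
      have e : Mm b β + s • mat (Bf B) = mat (mf b β + s • Bf B) := (mat_add_smul _ _ _).symm
      rw [e, neg_mul, ← mat_comp, ← mat_compl₂, ← map_smul, ← sub_eq_add_neg, ← map_sub]
      congr 1
      refine LinearMap.ext fun u => LinearMap.ext fun w => ?_
      rw [LinearMap.sub_apply, LinearMap.sub_apply, LinearMap.comp_apply,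
        LinearMap.compl₂_apply, LinearMap.smul_apply, LinearMap.smul_apply, nf_apply, e1_apply,
        e1_apply, LinearMap.add_apply, LinearMap.add_apply, LinearMap.add_apply,
        LinearMap.add_apply, LinearMap.smul_apply, LinearMap.smul_apply, LinearMap.smul_apply,
        LinearMap.smul_apply, mf_apply, mf_apply, Bf_apply, Bf_apply]
      have hY' : ∀ Z, dotProduct β (b Z Y) = 0 := by
        intro Z
        rw [hanti, dotProduct_neg, hY, neg_zero]
      simp only [map_smul, LinearMap.smul_apply, dotProduct_smul, smul_eq_mul, hY, hY', hY0,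
        hsym u.1 Y]
      ring) (by
      rw [Matrix.trace_neg, Matrix.trace_transpose, add_neg_cancel]) hs hK
  have h3 : mat (Bf B) * -A + mat (nf B Y) = Mm b δ := by
    rw [mul_neg, ← mat_compl₂, neg_add_eq_sub, ← map_sub, Mm_apply]
    congr 1
    refine LinearMap.ext fun u => LinearMap.ext fun w => ?_
    rw [LinearMap.sub_apply, LinearMap.sub_apply, LinearMap.compl₂_apply, nf_apply, Bf_apply,
      adW_apply, mf_apply, hδ, hδ, hδ]
    have : B Y (b u.1 w.1) = - B u.1 (b Y w.1) := by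
      rw [← hinv, ← hinv, hanti Y u.1, map_neg, LinearMap.neg_apply]
    rw [this]
    ring
  rw [h3] at key
  exact key

end dir

/-- a polynomial that vanishes near a point is zero -/
theorem poly_zero (P : MvPolynomial (Fin n) ℝ) {U : Set (Fin n → ℝ)} {α : Fin n → ℝ}
    (hU : U ∈ 𝓝 α) (h : ∀ β ∈ U, MvPolynomial.eval β P = 0) : P = 0 := by
  obtain ⟨ε, hε, hb⟩ := Metric.mem_nhds_iff.1 hU
  refine MvPolynomial.funext_set (fun i => Metric.ball (α i) ε) (fun i => ?_) ?_
  · rw [Real.ball_eq_Ioo]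
    exact Set.Ioo_infinite (by linarith)
  · intro x hx
    rw [map_zero]
    refine h x (hb ?_)
    rw [Metric.mem_ball, dist_pi_lt_iff hε]
    intro i
    exact hx i (Set.mem_univ i)

/-- a negative definite form on a subspace represents all linear forms -/
theorem represent (B : (Fin n → ℝ) →ₗ[ℝ] (Fin n → ℝ) →ₗ[ℝ] ℝ) (h : Submodule ℝ (Fin n → ℝ))
    (hneg : ∀ X ∈ h, X ≠ 0 → B X X < 0) (δ : (Fin n → ℝ) →ₗ[ℝ] ℝ) :
    ∃ Y ∈ h, ∀ Z ∈ h, B Y Z = δ Z := by
  let Φ : h →ₗ[ℝ] Module.Dual ℝ h := B.compl₁₂ h.subtype h.subtype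
  have hΦ : ∀ Y Z : h, Φ Y Z = B Y Z := fun _ _ => rfl
  have hinj : Function.Injective Φ := by
    rw [injective_iff_map_eq_zero]
    intro Y hY
    by_contra hne
    have h1 : (Y : Fin n → ℝ) ≠ 0 := by
      intro h0
      exact hne (Subtype.ext h0)
    have h2 := hneg Y Y.2 h1
    have h3 : Φ Y Y = 0 := by rw [hY]; rfl
    rw [hΦ] at h3
    linarith
  have hsurj : Function.Surjective Φ :=
    (LinearMap.injective_iff_surjective_of_finrank_eq_finrank
      (Subspace.dual_finrank_eq (K := ℝ) (V := h)).symm).1 hinj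
  obtain ⟨Y, hY⟩ := hsurj (δ.comp h.subtype)
  refine ⟨Y, Y.2, fun Z hZ => ?_⟩
  have := congrArg (fun φ => φ (⟨Z, hZ⟩ : h)) hY
  exact this

/-- **PIECE POLYH** -/
theorem polyh (hbord : S_bord) (hpk : S_pk) (hneg : S_neg) (hndeg : S_ndeg) : S_polyh := by
  intro n b B V α ξ hanti hjac htr hsym hinv hV hno hαξ hξ hαneg
  obtain ⟨P, hhom, hbig, heval, hder⟩ := hpk (Ix n) n (Mm b) (mat (Bf B))
  -- nondegeneracy at `α`
  obtain ⟨s₀, hs₀⟩ := hndeg n b B α ξ hanti hαneg hαξ hξ
  have hdetα : (Mm b α + s₀ • mat (Bf B)).det ≠ 0 := by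
    rw [Mm_apply, det_ne_iff]
    intro u hu
    have h1 : dotProduct α u.1 = 0 := by
      have := hu (0, 1)
      rw [mf_apply, Bf_apply] at this
      simpa using this
    have h2 : ∀ Z, dotProduct α (b u.1 Z) + s₀ * B u.1 Z = u.2 * dotProduct α Z := by
      intro Z
      have := hu (Z, 0)
      rw [mf_apply, Bf_apply] at this
      simp only [zero_mul, add_zero] at this
      linarith
    obtain ⟨h3, h4⟩ := hs₀ u.1 u.2 h1 h2
    exact Prod.ext h3 h4
  have hdet_of : ∀ (β : Fin n → ℝ) (s : ℝ), (Mm b β + s • mat (Bf B)).det ≠ 0 → ∃ k, MvPolynomial.eval β (P k) ≠ 0 := by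
    intro β s h
    rw [← eval_det] at h
    by_contra hcon
    push Not at hcon
    apply h
    have : (PM (Mm b β) (mat (Bf B))).det = 0 := by
      ext k
      rw [Polynomial.coeff_zero, ← hcon k, heval k β]
      rfl
    rw [this, Polynomial.eval_zero]
  obtain ⟨k₀, hk₀⟩ := hdet_of α s₀ hdetα
  -- the largest `k` with `P k ≠ 0`
  classical
  have hex : ∃ k, P k ≠ 0 := ⟨k₀, fun h => hk₀ (by rw [h, map_zero])⟩
  obtain ⟨K, hK0, hKmax⟩ : ∃ K, P K ≠ 0 ∧ ∀ k, K < k → P k = 0 := by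
    have hle : ∀ k, P k ≠ 0 → k ≤ Fintype.card (Ix n) := by
      intro k hk
      by_contra hlt
      exact hk (hbig k (not_le.1 hlt))
    obtain ⟨k, hk⟩ := hex
    refine ⟨Nat.findGreatest (fun k => P k ≠ 0) (Fintype.card (Ix n)), ?_, ?_⟩
    · exact Nat.findGreatest_spec (P := fun k => P k ≠ 0) (hle k hk) hk
    · intro j hj
      by_contra hne
      exact (Nat.findGreatest_is_greatest (P := fun k => P k ≠ 0) hj (hle j hne)) hne
  have hKcard : K ≤ Fintype.card (Ix n) := by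
    by_contra hlt
    exact hK0 (hbig K (not_le.1 hlt))
  have hnd : ∀ β, MvPolynomial.eval β (P K) ≠ 0 → ∃ s : ℝ, (Mm b β + s • mat (Bf B)).det ≠ 0 := by
    intro β hβ
    by_contra hcon
    push Not at hcon
    apply hβ
    rw [heval]
    have : (PM (Mm b β) (mat (Bf B))).det = 0 := by
      apply Polynomial.funext
      intro s
      rw [eval_det, hcon s, Polynomial.eval_zero]
    show ((PM (Mm b β) (mat (Bf B))).det).coeff K = 0
    rw [this, Polynomial.coeff_zero]
  -- (a)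
  have hA : ∀ β, MvPolynomial.eval β (P K) ≠ 0 → ∀ x ∈ V, (∀ Z, dotProduct β (b x Z) = 0) →
      dotProduct β x = 0 → x = 0 := by
    intro β hβ x hx hx1 hx2
    obtain ⟨s, hs⟩ := hnd β hβ
    rw [Mm_apply, det_ne_iff] at hs
    have := hs (x, 0) (by
      intro w
      rw [mf_apply, Bf_apply]
      show dotProduct β (b x w.1) + w.2 * dotProduct β x - 0 * dotProduct β w.1 + s * B x w.1 = 0
      rw [hx1, hx2, hV x hx]
      ring)
    exact congrArg Prod.fst this
  refine ⟨Fintype.card (Ix n) - K, P K, hhom K hKcard, hK0, hA, ?_, ?_⟩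
  · -- (e), (f)
    intro β₀ δ hδ
    obtain ⟨U, hU, hUneg⟩ := hneg n b B α hαneg
    -- the derivative at good points
    have key : ∀ β ∈ U, MvPolynomial.eval β (P K) ≠ 0 →
        HasDerivAt (fun ε : ℝ => MvPolynomial.eval (β + ε • δ) (P K)) 0 0 := by
      intro β hβU hβ
      obtain ⟨x, hxV, hx0, hxb⟩ := hno β
      have hβx : dotProduct β x ≠ 0 := fun h => hx0 (hA β hβ x hxV hxb h)
      let h : Submodule ℝ (Fin n → ℝ) :=
        { carrier := {Y | (∀ Z, dotProduct β (b Y Z) = 0) ∧ dotProduct β Y = 0}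
          zero_mem' := by simp
          add_mem' := by
            intro Y Y' hY hY'
            refine ⟨fun Z => ?_, ?_⟩
            · rw [map_add, LinearMap.add_apply, dotProduct_add, hY.1, hY'.1, add_zero]
            · rw [dotProduct_add, hY.2, hY'.2, add_zero]
          smul_mem' := by
            intro c Y hY
            refine ⟨fun Z => ?_, ?_⟩
            · rw [map_smul, LinearMap.smul_apply, dotProduct_smul, hY.1, smul_zero]
            · rw [dotProduct_smul, hY.2, smul_zero] }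
      have hmem : ∀ Y, Y ∈ h ↔ (∀ Z, dotProduct β (b Y Z) = 0) ∧ dotProduct β Y = 0 :=
        fun Y => Iff.rfl
      let lδ : (Fin n → ℝ) →ₗ[ℝ] ℝ := dotProductBilin ℝ ℝ δ
      have hlδ : ∀ Z, lδ Z = dotProduct δ Z := fun Z => rfl
      obtain ⟨Y, hYh, hYZ⟩ := represent B h (by
        intro X hX hX0
        exact hUneg β hβU X ((hmem X).1 hX).1 ((hmem X).1 hX).2 hX0) lδ
      have hY1 := ((hmem Y).1 hYh).1
      have hY2 := ((hmem Y).1 hYh).2
      -- the vector of `B Y`
      let δ₂ : Fin n → ℝ := fun i => B Y (Pi.single i 1)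
      have hδ₂ : ∀ Z, dotProduct δ₂ Z = B Y Z := by
        intro Z
        conv_rhs => rw [← Finset.univ_sum_single Z]
        rw [map_sum]
        refine Finset.sum_congr rfl fun i _ => ?_
        have e : (Pi.single i (Z i) : Fin n → ℝ) = Z i • Pi.single i 1 := by
          rw [← Pi.single_smul, smul_eq_mul, mul_one]
        rw [e, map_smul, smul_eq_mul, mul_comm]
      let Φ : (Fin n → ℝ) →ₗ[ℝ] Module.Dual ℝ (Fin n → ℝ) :=
        LinearMap.mk₂ ℝ (fun Z W => dotProduct β (b Z W))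
          (by intro Z Z' W; rw [map_add, LinearMap.add_apply, dotProduct_add])
          (by intro c Z W; rw [map_smul, LinearMap.smul_apply, dotProduct_smul])
          (by intro Z W W'; rw [map_add, dotProduct_add])
          (by intro c Z W; rw [map_smul, dotProduct_smul])
      have hΦ : ∀ Z W, Φ Z W = dotProduct β (b Z W) := fun _ _ => rfl
      obtain ⟨X, hX⟩ := Poly2.exists_rep Φ (lδ - B Y) (by
        intro Z hZ
        have hZb : ∀ W, dotProduct β (b Z W) = 0 := by
          intro W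
          rw [← hΦ, hZ]; rfl
        set c := dotProduct β Z / dotProduct β x with hc
        have hZh : Z - c • x ∈ h := by
          rw [hmem]
          refine ⟨fun W => ?_, ?_⟩
          · rw [map_sub, map_smul, LinearMap.sub_apply, LinearMap.smul_apply, dotProduct_sub,
              dotProduct_smul, hZb, hxb, smul_zero, sub_zero]
          · rw [dotProduct_sub, dotProduct_smul, hc, smul_eq_mul, div_mul_cancel₀ _ hβx, sub_self]
        have h1 := hYZ _ hZh
        rw [map_sub, map_smul, map_sub, map_smul, hlδ x, hδ x hxV, hsym Y x, hV x hxV, smul_zero,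
          sub_zero, sub_zero] at h1
        rw [LinearMap.sub_apply, h1, sub_self])
      let δ₁ : Fin n → ℝ := δ - δ₂
      have hδ₁ : ∀ Z, dotProduct δ₁ Z = dotProduct β (b (-X) Z) := by
        intro Z
        have h1 := hX Z
        rw [LinearMap.sub_apply, hlδ, hΦ] at h1
        rw [sub_dotProduct, hδ₂, h1, hanti, map_neg, LinearMap.neg_apply]
      have hsum : δ = δ₁ + δ₂ := by
        show δ = δ - δ₂ + δ₂
        rw [sub_add_cancel]
      have h1 := hder K β δ
      have h2 : ((((PM (Mm b β) (mat (Bf B))).adjugate *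
          ((Mm b δ).map Polynomial.C)).trace).coeff K) = 0 := by
        rw [hsum, map_add, Matrix.map_add _ (fun a b => Polynomial.C_add), mul_add,
          Matrix.trace_add, Polynomial.coeff_add,
          dir1 (B := B) hanti hjac htr hinv hδ₁ K,
          dir2 hbord hanti hjac hsym hinv hδ₂ hY1 hY2 K (hnd β hβ) ?_, add_zero]
        intro k hk
        have := heval k β
        rw [hKmax k hk, map_zero] at this
        exact this.symm
      have h3 : ((((Mm b β).map Polynomial.C + (Polynomial.X : ℝ[X]) •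
          (mat (Bf B)).map Polynomial.C).adjugate *
          ((Mm b δ).map Polynomial.C)).trace).coeff K = 0 := h2
      rw [h3] at h1
      exact h1
    -- the directional derivative as a polynomial
    set R : MvPolynomial (Fin n) ℝ := ∑ i, MvPolynomial.C (δ i) * MvPolynomial.pderiv i (P K)
      with hR
    have hReval : ∀ β, MvPolynomial.eval β R =
        ∑ i, δ i * MvPolynomial.eval β (MvPolynomial.pderiv i (P K)) := by
      intro β
      rw [hR, map_sum]
      refine Finset.sum_congr rfl fun i _ => ?_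
      rw [map_mul, MvPolynomial.eval_C]
    have hRder : ∀ β (t : ℝ), HasDerivAt (fun ε : ℝ => MvPolynomial.eval (β + ε • δ) (P K))
        (MvPolynomial.eval (β + t • δ) R) t := by
      intro β t
      rw [hReval]
      refine Hess.hasDerivAt_eval (P K) (fun ε => β + ε • δ) δ t ?_
      intro i
      have h1 : HasDerivAt (fun ε : ℝ => β i + ε * δ i) (1 * δ i) t :=
        ((hasDerivAt_id t).mul_const (δ i)).const_add (β i)
      rw [one_mul] at h1
      exact h1
    have hPR : P K * R = 0 := by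
      refine poly_zero _ hU fun β hβ => ?_
      rw [map_mul]
      by_cases h0 : MvPolynomial.eval β (P K) = 0
      · rw [h0, zero_mul]
      · have h1 := hRder β 0
        rw [zero_smul, add_zero] at h1
        rw [h1.unique (key β hβ h0), mul_zero]
    have hR0 : R = 0 := by
      rcases mul_eq_zero.1 hPR with h | h
      · exact absurd h hK0
      · exact h
    have hconst : ∀ s t : ℝ, MvPolynomial.eval (β₀ + s • δ) (P K) =
        MvPolynomial.eval (β₀ + t • δ) (P K) := by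
      refine is_const_of_deriv_eq_zero (f := fun ε : ℝ => MvPolynomial.eval (β₀ + ε • δ) (P K))
        (fun t => (hRder β₀ t).differentiableAt) (fun t => ?_)
      rw [(hRder β₀ t).deriv, hR0, map_zero]
    have := hconst 1 0
    rwa [one_smul, zero_smul, add_zero] at this
  · -- (b)
    intro T hT hTb hTB β β' hβ
    rw [heval, heval]
    have hdet : (PM (Mm b β') (mat (Bf B))).det = (PM (Mm b β) (mat (Bf B))).det := by
      apply Polynomial.funext
      intro s
      rw [eval_det, eval_det]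
      set T' : W n →ₗ[ℝ] W n := T.prodMap LinearMap.id with hT'
      have hT'a : ∀ u, T' u = (T u.1, u.2) := fun u => rfl
      have e1 : mf b β' + s • Bf B = (mf b β + s • Bf B).compl₁₂ T' T' := by
        refine LinearMap.ext fun u => LinearMap.ext fun w => ?_
        rw [LinearMap.compl₁₂_apply, LinearMap.add_apply, LinearMap.add_apply,
          LinearMap.add_apply, LinearMap.add_apply, LinearMap.smul_apply, LinearMap.smul_apply,
          LinearMap.smul_apply, LinearMap.smul_apply, mf_apply, mf_apply, Bf_apply, Bf_apply,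
          hT'a, hT'a]
        simp only [hβ, hTb, hTB]
      have e2 : Mm b β' + s • mat (Bf B) = mat (mf b β' + s • Bf B) := (mat_add_smul _ _ _).symm
      have e3 : Mm b β + s • mat (Bf B) = mat (mf b β + s • Bf B) := (mat_add_smul _ _ _).symm
      have e4 : (emat T').det = 1 := by
        rw [LinearMap.det_toMatrix, hT', LinearMap.det_prodMap, hT, LinearMap.det_id, one_mul]
      rw [e2, e3, e1, mat, LinearMap.toMatrix₂_compl₁₂ (bb n) (bb n), Matrix.det_mul,
        Matrix.det_mul, Matrix.det_transpose]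
      have e5 : (LinearMap.toMatrix (bb n) (bb n) T').det = 1 := e4
      rw [e5, one_mul, mul_one]
    show ((PM (Mm b β') (mat (Bf B))).det).coeff K = ((PM (Mm b β) (mat (Bf B))).det).coeff K
    rw [hdet]

end Pool.Agent.Run7.h882.LK
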